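import Mathlib

/-!
# Quotients of fundamental groups of special manifolds: tools
-/

set_option autoImplicit false

namespace Pool.Agent.Lib.MP_93ec49_ag

open Subgroup
open scoped commutatorElement

/-- Virtually abelian groups: a subgroup of finite index is abelian. -/
def VirtAb (S : Type*) [Group S] : Prop :=
  ∃ A : Subgroup S, A.FiniteIndex ∧ ∀ x ∈ A, ∀ y ∈ A, x * y = y * x

/-- The elements of `H` which are killed by all homomorphisms from `H` to the integers (for finitely
generated `H`: the kernel of the map from `H` to its abelianisation modulo torsion). -/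
def ker1 (H : Type*) [Group H] : Subgroup H where
  carrier := {x | ∀ f : Additive H →+ ℤ, f (Additive.ofMul x) = 0}
  one_mem' := fun f => by rw [ofMul_one, map_zero]
  mul_mem' := fun {a b} ha hb f => by rw [ofMul_mul, map_add, ha f, hb f, add_zero]
  inv_mem' := fun {a} ha f => by rw [ofMul_inv, map_neg, ha f, neg_zero]

theorem mem_ker1 {H : Type*} [Group H] {x : H} :
    x ∈ ker1 H ↔ ∀ f : Additive H →+ ℤ, f (Additive.ofMul x) = 0 := Iff.rfl

theorem commutator_mem_ker1 {H : Type*} [Group H] (x y : H) : ⁅x, y⁆ ∈ ker1 H := by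
  intro f
  rw [commutatorElement_def, ofMul_mul, ofMul_mul, ofMul_mul, ofMul_inv, ofMul_inv]
  simp only [map_add, map_neg]
  ring

theorem map_mem_ker1 {H R : Type*} [Group H] [Group R] (q : H →* R) {x : H} (hx : x ∈ ker1 H) :
    q x ∈ ker1 R := fun F => hx (F.comp q.toAdditive)

instance ker1_normal (H : Type*) [Group H] : (ker1 H).Normal :=
  ⟨fun x hx g => by
    have h1 : g * x * g⁻¹ = ⁅g, x⁆ * x := by rw [commutatorElement_def]; group
    rw [h1]
    exact mul_mem (commutator_mem_ker1 g x) hx⟩

/-- injective with an image of finite index -/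
def FI {H R : Type*} [Group H] [Group R] (i : H →* R) : Prop :=
  Function.Injective i ∧ i.range.FiniteIndex

theorem FI.comp {H R Q : Type*} [Group H] [Group R] [Group Q] {j : H →* R} {i : R →* Q}
    (hj : FI j) (hi : FI i) : FI (i.comp j) := by
  refine ⟨hi.1.comp hj.1, ?_⟩
  have h1 : (i.comp j).range = j.range.map i := by
    rw [MonoidHom.range_eq_map, ← Subgroup.map_map, ← MonoidHom.range_eq_map]
  rw [h1]
  refine ⟨?_⟩
  rw [Subgroup.index_map_of_injective _ hi.1]
  exact mul_ne_zero hj.2.index_ne_zero hi.2.index_ne_zero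

theorem FI_subtype {R : Type*} [Group R] (H : Subgroup R) [h : H.FiniteIndex] : FI H.subtype :=
  ⟨H.subtype_injective, by rw [H.range_subtype]; exact h⟩

theorem FI.fg {H R : Type*} [Group H] [Group R] {i : H →* R} (hi : FI i) [Group.FG R] :
    Group.FG H := by
  have := hi.2
  have : Group.FG i.range := inferInstance
  exact Group.fg_of_surjective (f := (MonoidHom.ofInjective hi.1).symm.toMonoidHom)
    (MonoidHom.ofInjective hi.1).symm.surjective

theorem VirtAb.of_FI {H R : Type*} [Group H] [Group R] {i : H →* R} (hi : FI i) (h : VirtAb H) :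
    VirtAb R := by
  obtain ⟨A, hA, hc⟩ := h
  refine ⟨A.map i, ⟨?_⟩, ?_⟩
  · rw [Subgroup.index_map_of_injective _ hi.1]
    exact mul_ne_zero hA.index_ne_zero hi.2.index_ne_zero
  · rintro _ ⟨x, hx, rfl⟩ _ ⟨y, hy, rfl⟩
    rw [← map_mul, ← map_mul, hc x hx y hy]

/-- In a finitely generated abelian group an element of infinite order is detected by a homomorphism
to the integers. -/
theorem exists_hom_ne_zero {A : Type*} [AddCommGroup A] [AddGroup.FG A] {a : A}
    (ha : ∀ m : ℤ, m ≠ 0 → m • a ≠ 0) : ∃ f : A →+ ℤ, f a ≠ 0 := by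
  have : Module.Finite ℤ A := Module.Finite.iff_addGroup_fg.2 inferInstance
  have : Module.IsTorsionFree ℤ (A ⧸ Submodule.torsion ℤ A) := inferInstance
  have : Module.Free ℤ (A ⧸ Submodule.torsion ℤ A) := inferInstance
  have h1 : (Submodule.Quotient.mk a : A ⧸ Submodule.torsion ℤ A) ≠ 0 := by
    rw [Ne, Submodule.Quotient.mk_eq_zero]
    rintro ⟨⟨m, hm⟩, h⟩
    exact ha m (nonZeroDivisors.ne_zero hm) h
  have h2 : ¬ ∀ φ : Module.Dual ℤ (A ⧸ Submodule.torsion ℤ A), φ (Submodule.Quotient.mk a) = 0 :=
    fun h => h1 ((Module.forall_dual_apply_eq_zero_iff ℤ _).1 h)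
  push Not at h2
  obtain ⟨φ, hφ⟩ := h2
  exact ⟨(φ.comp (Submodule.mkQ _)).toAddMonoidHom, hφ⟩

/-- The same for a group in which all elements commute. -/
theorem exists_hom_ne_zero' {A : Type*} [Group A] (hA : ∀ x y : A, x * y = y * x) [Group.FG A]
    {a : A} (ha : ∀ m : ℕ, 0 < m → a ^ m ≠ 1) :
    ∃ f : Additive A →+ ℤ, f (Additive.ofMul a) ≠ 0 := by
  let _ : CommGroup A := { (inferInstance : Group A) with mul_comm := hA }
  refine exists_hom_ne_zero (A := Additive A) fun m hm h => ?_
  have h1 : a ^ m = 1 := h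
  rcases Int.natAbs_eq m with h2 | h2
  · rw [h2, zpow_natCast] at h1
    exact ha _ (Int.natAbs_pos.2 hm) h1
  · rw [h2, zpow_neg, zpow_natCast, inv_eq_one] at h1
    exact ha _ (Int.natAbs_pos.2 hm) h1

/-- An infinite finitely generated abelian group has a non-zero homomorphism to the integers. -/
theorem exists_hom_of_infinite {A : Type*} [Group A] (hA : ∀ x y : A, x * y = y * x) [Group.FG A]
    [Infinite A] : ∃ f : Additive A →+ ℤ, ∃ a : A, f (Additive.ofMul a) ≠ 0 := by
  by_contra hcon
  push Not at hcon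
  let _ : CommGroup A := { (inferInstance : Group A) with mul_comm := hA }
  have h1 : ∀ a : A, ∃ m : ℕ, 0 < m ∧ a ^ m = 1 := by
    intro a
    by_contra h
    push Not at h
    obtain ⟨f, hf⟩ := exists_hom_ne_zero' hA h
    exact hf (hcon f a)
  have h2 : IsMulTorsion A := by
    intro a
    obtain ⟨m, hm, h⟩ := h1 a
    exact isOfFinOrder_iff_pow_eq_one.2 ⟨m, hm, h⟩
  exact (inferInstance : Infinite A).not_finite (CommGroup.finite_of_fg_isMulTorsion A h2)

/-- finitely many homomorphisms from a finitely generated group to a finite group -/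
theorem finite_hom (K P : Type*) [Group K] [Group P] [Group.FG K] [Finite P] : Finite (K →* P) := by
  obtain ⟨S, hS, hf⟩ := Group.fg_iff.1 (inferInstance : Group.FG K)
  have := hf.to_subtype
  refine Finite.of_injective (fun f : K →* P => fun s : S => f s) fun f g h => ?_
  refine MonoidHom.eq_of_eqOn_dense hS fun s hs => ?_
  exact congrFun h ⟨s, hs⟩

/-- A subgroup of finite index of a finitely generated group contains a characteristic subgroup of
finite index. -/
theorem exists_char {K : Type*} [Group K] [Group.FG K] (L : Subgroup K) [hL : L.FiniteIndex] :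
    ∃ M : Subgroup K, M.Characteristic ∧ M.FiniteIndex ∧ M ≤ L := by
  have : Finite (K ⧸ L) := inferInstance
  have : Finite (Equiv.Perm (K ⧸ L)) := inferInstance
  have := finite_hom K (Equiv.Perm (K ⧸ L))
  refine ⟨⨅ θ : K →* Equiv.Perm (K ⧸ L), θ.ker, ?_, ?_, ?_⟩
  · rw [Subgroup.characteristic_iff_le_comap]
    intro ϕ x hx
    rw [Subgroup.mem_iInf] at hx
    rw [Subgroup.mem_comap, Subgroup.mem_iInf]
    intro θ
    exact hx (θ.comp ϕ.toMonoidHom)
  · exact Subgroup.finiteIndex_iInf fun θ => Subgroup.finiteIndex_ker θ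
  · intro x hx
    rw [Subgroup.mem_iInf] at hx
    have h1 := hx (MulAction.toPermHom K (K ⧸ L))
    have h2 : x • ((1 : K) : K ⧸ L) = ((1 : K) : K ⧸ L) := by
      have h3 := congrArg (fun σ : Equiv.Perm (K ⧸ L) => σ ((1 : K) : K ⧸ L))
        ((MonoidHom.mem_ker).1 h1)
      exact h3
    rw [MulAction.Quotient.smul_coe, smul_eq_mul, mul_one, QuotientGroup.eq, mul_one] at h2
    exact (inv_mem_iff).1 h2

/-- The centraliser of a finite normal subgroup has finite index. -/
theorem centralizer_finiteIndex {R : Type*} [Group R] (K : Subgroup R) [K.Normal] [Finite K] :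
    (Subgroup.centralizer (K : Set R)).FiniteIndex := by
  have : Finite (MulAut K) := Finite.of_injective (fun φ : MulAut K => (φ : K → K))
    fun f g h => MulEquiv.ext fun x => congrFun h x
  have : ((MulAut.conjNormal : R →* MulAut K)).ker.FiniteIndex := Subgroup.finiteIndex_ker _
  refine Subgroup.finiteIndex_of_le (H := (MulAut.conjNormal : R →* MulAut K).ker) ?_
  intro g hg
  rw [Subgroup.mem_centralizer_iff]
  intro k hk
  have h1 : (MulAut.conjNormal g : MulAut K) ⟨k, hk⟩ = ⟨k, hk⟩ := by
    rw [(MonoidHom.mem_ker).1 hg]; rfl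
  have h2 := congrArg Subtype.val h1
  rw [MulAut.conjNormal_apply] at h2
  have h3 : g * k * g⁻¹ = k := h2
  rw [mul_inv_eq_iff_eq_mul] at h3
  exact h3.symm

end Pool.Agent.Lib.MP_93ec49_ag
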