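import Pool.Agent.Lib.MP_93ec49_ag.SQN

/-!
# Quotients of fundamental groups of special manifolds: the main step
-/

set_option autoImplicit false

namespace Pool.Agent.Lib.MP_93ec49_ag

open Subgroup
open scoped commutatorElement

/-- Solvability of a quotient of `C` by a chain of three subgroups with abelian quotients. -/
theorem solvable_chain {C S : Type*} [Group C] [Group S] (f : C →* S) (hf : Function.Surjective f)
    (K1 K2 K3 : Subgroup C) (h1 : ∀ x y : C, ⁅x, y⁆ ∈ K1) (h2 : ∀ x ∈ K1, ∀ y ∈ K1, ⁅x, y⁆ ∈ K2)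
    (h3 : ∀ x ∈ K2, ∀ y ∈ K2, ⁅x, y⁆ ∈ K3) (h4 : ∀ x ∈ K3, f x = 1) : Group.IsSolvable S := by
  have e1 : derivedSeries C 1 ≤ K1 := by
    rw [derivedSeries_succ, derivedSeries_zero]
    exact Subgroup.commutator_le.2 fun x _ y _ => h1 x y
  have e2 : derivedSeries C 2 ≤ K2 := by
    rw [derivedSeries_succ]
    exact Subgroup.commutator_le.2 fun x hx y hy => h2 x (e1 hx) y (e1 hy)
  have e3 : derivedSeries C 3 ≤ K3 := by
    rw [derivedSeries_succ]
    exact Subgroup.commutator_le.2 fun x hx y hy => h3 x (e2 hx) y (e2 hy)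
  refine ⟨3, ?_⟩
  rw [← map_derivedSeries_eq hf, eq_bot_iff]
  rintro _ ⟨x, hx, rfl⟩
  exact h4 x (e3 hx)

section

variable {Q R : Type} [Group Q] [Group R] {i : R →* Q} (hi : FI i) [Group.FG Q]
  (hsol : ∀ (H : Type) [Group H] (i : H →* Q), FI i → ∀ (S : Type) [Group S] (f : H →* S),
    Function.Surjective f → Group.IsSolvable S → (∀ T : Subgroup S, T.FG) → VirtAb S)
  (K : Subgroup R) [K.Normal] (hK2 : ∀ x y : R, ⁅x, y⁆ ∈ K)

include hi hsol hK2

theorem core2 [Finite K] : VirtAb R := by
  have := centralizer_finiteIndex K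
  set C := Subgroup.centralizer (K : Set R) with hC
  have hFI := FI_subtype C
  refine VirtAb.of_FI hFI ?_
  have hRfg : Group.FG R := hi.fg
  have hCfg : Group.FG C := hFI.fg
  refine hsol C (i.comp C.subtype) (hFI.comp hi) C (MonoidHom.id C) Function.surjective_id ?_ ?_
  swap
  · have hfin : Finite (K.subgroupOf C) :=
      Finite.of_injective (fun x : K.subgroupOf C => (⟨(x : C), x.2⟩ : K)) fun x y hxy => by
        have h := congrArg (fun z : K => (z : R)) hxy
        exact Subtype.ext (Subtype.ext h)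
    refine noeth_chain (MonoidHom.id C) Function.surjective_id (K.subgroupOf C) ⊥ ?_ bot_le ?_ ?_
      ?_ ?_
    · intro x y
      exact hK2 x y
    · rw [Subgroup.relIndex_bot_left]
      exact Nat.card_pos.ne'
    · exact ⟨∅, by simp⟩
    · intro x hx
      exact hx
    · intro x hx y hy
      rw [Subgroup.mem_bot] at hx hy
      rw [hx, hy]
  refine solvable_chain (MonoidHom.id C) Function.surjective_id (K.subgroupOf C) ⊥ ⊥ ?_ ?_ ?_ ?_
  · intro x y
    exact hK2 x y
  · intro x hx y hy
    rw [Subgroup.mem_bot]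
    rw [commutatorElement_eq_one_iff_mul_comm]
    have h1 := (Subgroup.mem_centralizer_iff.1 y.2) x hx
    exact Subtype.ext h1
  · intro x hx y hy
    rw [Subgroup.mem_bot] at hx hy ⊢
    rw [hx, hy, commutatorElement_self]
  · intro x hx
    exact hx

variable (hmax : ∀ (H : Type) [Group H] (j : H →* R), FI j → ∀ (f : Additive H →+ ℤ) (x : H),
    j x ∈ ker1 R → f (Additive.ofMul x) = 0)
  (hK1 : K ≤ ker1 R) [Group.FG K]

include hmax hK1

theorem core1 (L : Subgroup K) [L.FiniteIndex] (f : Additive L →+ ℤ) (y : L) :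
    f (Additive.ofMul y) = 0 := by
  by_contra hy
  obtain ⟨M, hMc, hMf, hML⟩ := exists_char L
  -- `N'` = the elements of `M` killed by all homomorphisms to the integers
  set N' : Subgroup K := (ker1 M).map M.subtype with hN'
  have hN'c : N'.Characteristic := by
    rw [Subgroup.characteristic_iff_le_comap]
    rintro ϕ _ ⟨x, hx, rfl⟩
    have h1 : ∀ z : M, ϕ z ∈ M := fun z =>
      (Subgroup.characteristic_iff_le_comap.1 hMc ϕ) z.2
    let ψ : M →* M := (ϕ.toMonoidHom.comp M.subtype).codRestrict M h1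
    exact ⟨ψ x, map_mem_ker1 ψ hx, rfl⟩
  set K2 : Subgroup R := M.map K.subtype with hK2'
  set N : Subgroup R := N'.map K.subtype with hN
  have hK2n : K2.Normal := ConjAct.normal_of_characteristic_of_normal
  have hNn : N.Normal := ConjAct.normal_of_characteristic_of_normal
  -- the centraliser of `K` modulo `K2`
  let π : R →* R ⧸ K2 := QuotientGroup.mk' K2
  have hKb : (K.map π).Normal := Subgroup.Normal.map inferInstance π (QuotientGroup.mk'_surjective K2)
  have hfin : Finite (K.map π) := by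
    have e1 : K.map π = (π.comp K.subtype).range := by
      rw [MonoidHom.range_eq_map, ← Subgroup.map_map, ← MonoidHom.range_eq_map, K.range_subtype]
    rw [e1]
    have e2 : (π.comp K.subtype).ker.FiniteIndex := by
      refine Subgroup.finiteIndex_of_le (H := M) ?_
      intro x hx
      rw [MonoidHom.mem_ker]
      exact (QuotientGroup.eq_one_iff _).2 ⟨x, hx, rfl⟩
    exact Finite.of_equiv _ (QuotientGroup.quotientKerEquivRange (π.comp K.subtype)).toEquiv
  have hcen := centralizer_finiteIndex (K.map π)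
  set C : Subgroup R := (Subgroup.centralizer ((K.map π : Subgroup (R ⧸ K2)) : Set (R ⧸ K2))).comap π
    with hC
  have hCf : C.FiniteIndex := by
    refine ⟨?_⟩
    rw [hC, Subgroup.index_comap_of_surjective _ (QuotientGroup.mk'_surjective K2)]
    exact hcen.index_ne_zero
  have hCFI := FI_subtype C
  have hCfg : Group.FG R := hi.fg
  have hCfg' : Group.FG C := hCFI.fg
  have hNnC : (N.subgroupOf C).Normal := inferInstance
  let q : C →* C ⧸ N.subgroupOf C := QuotientGroup.mk' (N.subgroupOf C)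
  have hq : Function.Surjective q := QuotientGroup.mk'_surjective _
  have hqk : ∀ x : C, q x = 1 ↔ (x : R) ∈ N := fun x => by
    rw [← MonoidHom.mem_ker, QuotientGroup.ker_mk', Subgroup.mem_subgroupOf]
  have hK2C : K2 ≤ C := by
    intro x hx
    rw [hC, Subgroup.mem_comap]
    have : π x = 1 := (QuotientGroup.eq_one_iff _).2 hx
    rw [this]
    exact one_mem _
  have hcomm : ∀ x ∈ K2.subgroupOf C, ∀ y ∈ K2.subgroupOf C, ⁅x, y⁆ ∈ N.subgroupOf C := by
    rintro ⟨x, hxC⟩ hx ⟨y, hyC⟩ hy
    rw [Subgroup.mem_subgroupOf] at hx hy ⊢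
    obtain ⟨x', hx', hx2⟩ := hx
    obtain ⟨y', hy', hy2⟩ := hy
    refine ⟨⁅x', y'⁆, ⟨⁅(⟨x', hx'⟩ : M), ⟨y', hy'⟩⁆, commutator_mem_ker1 _ _, rfl⟩, ?_⟩
    rw [map_commutatorElement, hx2, hy2]
    rfl
  have hS : Group.IsSolvable (C ⧸ N.subgroupOf C) := by
    refine solvable_chain q hq (K.subgroupOf C) (K2.subgroupOf C) (N.subgroupOf C) ?_ ?_ ?_ ?_
    · intro x y
      exact hK2 x y
    · intro x hx y _
      rw [Subgroup.mem_subgroupOf] at hx ⊢
      have h1 := (Subgroup.mem_centralizer_iff.1 (Subgroup.mem_comap.1 y.2)) (π x) ⟨x, hx, rfl⟩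
      have h2 : ⁅π (x : R), π (y : R)⁆ = 1 := commutatorElement_eq_one_iff_mul_comm.2 h1
      rw [← map_commutatorElement] at h2
      exact (QuotientGroup.eq_one_iff _).1 h2
    · exact hcomm
    · intro x hx
      exact (hqk x).2 hx
  have hMfg : Group.FG M := inferInstance
  have hS2 : ∀ T : Subgroup (C ⧸ N.subgroupOf C), T.FG := by
    refine noeth_chain q hq (K.subgroupOf C) (K2.subgroupOf C) ?_ ?_ ?_ ?_ ?_ ?_
    · intro x y
      exact hK2 x y
    · intro x hx
      rw [Subgroup.mem_subgroupOf] at hx ⊢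
      obtain ⟨z, -, hz⟩ := hx
      rw [← hz]
      exact z.2
    · intro h0
      have e1 : K2.relIndex K ≠ 0 := by
        have e2 : K2.subgroupOf K = M := Subgroup.comap_map_eq_self_of_injective K.subtype_injective M
        have e3 : (K2.subgroupOf K).index ≠ 0 := by rw [e2]; exact hMf.index_ne_zero
        exact e3
      apply e1
      have e4 : (K2.subgroupOf C).relIndex (K.subgroupOf C) = K2.relIndex (K ⊓ C) := by
        rw [← Subgroup.relIndex_map_map_of_injective _ _ C.subtype_injective,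
          Subgroup.map_subgroupOf_eq_of_le hK2C, Subgroup.subgroupOf_map_subtype]
      rw [e4] at h0
      exact Subgroup.relIndex_eq_zero_of_le_right inf_le_left h0
    · have e1 : Group.FG K2 :=
        Group.fg_of_surjective (f := K.subtype.subgroupMap M) (K.subtype.subgroupMap_surjective M)
      rw [← Group.fg_iff_subgroup_fg]
      exact Group.fg_of_surjective (f := (Subgroup.subgroupOfEquivOfLe hK2C).symm.toMonoidHom)
        (Subgroup.subgroupOfEquivOfLe hK2C).symm.surjective
    · intro x hx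
      have e1 := (hqk x).1 hx
      rw [Subgroup.mem_subgroupOf]
      obtain ⟨z, ⟨w, -, hw⟩, hz⟩ := e1
      rw [← hz, ← hw]
      exact ⟨_, w.2, rfl⟩
    · intro x hx y hy
      rw [← commutatorElement_eq_one_iff_mul_comm, ← map_commutatorElement]
      exact (hqk _).2 (hcomm x hx y hy)
  obtain ⟨A, hA, hAc⟩ := hsol C (i.comp C.subtype) (hCFI.comp hi) _ q hq hS hS2
  -- an element of `M` on which `f` is not zero
  obtain ⟨m, hm0, -, hm⟩ := Subgroup.exists_pow_mem_of_index_ne_zero hMf.index_ne_zero (y : K)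
  let x : M := ⟨(y : K) ^ m, hm⟩
  let g : Additive M →+ ℤ := f.comp (Subgroup.inclusion hML).toAdditive
  have hgx : g (Additive.ofMul x) = m * f (Additive.ofMul y) := by
    have e1 : (Subgroup.inclusion hML) x = y ^ m := Subtype.ext rfl
    have e2 : g (Additive.ofMul x) = f (Additive.ofMul ((Subgroup.inclusion hML) x)) := rfl
    rw [e2, e1, ofMul_pow, map_nsmul, nsmul_eq_mul]
  have hgx0 : g (Additive.ofMul x) ≠ 0 := by
    rw [hgx]
    exact mul_ne_zero (by exact_mod_cast hm0.ne') hy
  have hxK2 : ((x : K) : R) ∈ K2 := ⟨x, x.2, rfl⟩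
  let xc : C := ⟨((x : K) : R), hK2C hxK2⟩
  obtain ⟨k, hk0, -, hk⟩ := Subgroup.exists_pow_mem_of_index_ne_zero hA.index_ne_zero (q xc)
  let a : A := ⟨q xc ^ k, hk⟩
  have hafin : ∀ l : ℕ, 0 < l → a ^ l ≠ 1 := by
    intro l hl h
    have h1 : q (xc ^ (k * l)) = 1 := by
      rw [map_pow, pow_mul]
      exact congrArg Subtype.val h
    have h2 := (hqk _).1 h1
    obtain ⟨z, ⟨w, hw, hw2⟩, hz2⟩ := h2
    have h3 : w = x ^ (k * l) := by
      apply Subtype.ext
      apply Subtype.ext
      have e1 : ((w : K) : R) = ((z : K) : R) := congrArg Subtype.val hw2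
      rw [e1]
      exact hz2
    have h4 := hw g
    rw [h3, ofMul_pow, map_nsmul, nsmul_eq_mul] at h4
    rcases mul_eq_zero.1 h4 with h5 | h5
    · have : k * l = 0 := by exact_mod_cast h5
      rcases Nat.mul_eq_zero.1 this with h6 | h6 <;> omega
    · exact hgx0 h5
  have hAfg : Group.FG A := by
    have : Group.FG (C ⧸ N.subgroupOf C) := inferInstance
    infer_instance
  obtain ⟨F, hF⟩ := exists_hom_ne_zero' (fun u v : A => Subtype.ext (hAc u u.2 v v.2)) hafin
  -- the preimage of `A`
  have hB : (A.comap q).FiniteIndex := ⟨by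
    rw [Subgroup.index_comap_of_surjective _ hq]; exact hA.index_ne_zero⟩
  have hBFI : FI (C.subtype.comp (A.comap q).subtype) := (FI_subtype (A.comap q)).comp hCFI
  let b : A.comap q := ⟨xc ^ k, by rw [Subgroup.mem_comap, map_pow]; exact hk⟩
  let r : (A.comap q) →* A := (q.comp (A.comap q).subtype).codRestrict A fun z => z.2
  have hb : r b = a := Subtype.ext (map_pow q xc k)
  have h6 := hmax _ _ hBFI (F.comp r.toAdditive) b (hK1 (by
    change ((x : K) : R) ^ k ∈ K
    exact pow_mem (x : K).2 k))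
  apply hF
  rw [← hb]
  exact h6

end

end Pool.Agent.Lib.MP_93ec49_ag
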