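import Pool.Agent.Lib.MP_93ec49_ag.SQ2

/-!
# Quotients of fundamental groups of special manifolds: assembly
-/

set_option autoImplicit false

namespace Pool.Agent.Lib.MP_93ec49_ag

open Subgroup
open scoped commutatorElement

theorem lift {G Q R : Type} [Group G] [Group Q] [Group R] {p : G →* Q}
    (hp : Function.Surjective p) {i : R →* Q} (hi : FI i) :
    ∃ H : Subgroup G, H.FiniteIndex ∧ ∃ q : H →* R, Function.Surjective q ∧
      ∀ h : H, i (q h) = p h := by
  let e := MonoidHom.ofInjective hi.1
  let p' : (i.range.comap p) →* i.range :=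
    (p.comp (i.range.comap p).subtype).codRestrict i.range fun h => h.2
  refine ⟨i.range.comap p, ⟨?_⟩, e.symm.toMonoidHom.comp p', ?_, ?_⟩
  · rw [Subgroup.index_comap_of_surjective _ hp]
    exact hi.2.index_ne_zero
  · intro r
    obtain ⟨g, hg⟩ := hp (i r)
    refine ⟨⟨g, ⟨r, hg.symm⟩⟩, ?_⟩
    change e.symm (p' _) = r
    rw [MulEquiv.symm_apply_eq]
    exact Subtype.ext hg
  · intro h
    have h1 : e (e.symm (p' h)) = p' h := e.apply_symm_apply _
    exact congrArg Subtype.val h1

/-- The number of independent homomorphisms to the integers grows if one more homomorphism, on a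
subgroup of finite index, is not zero on the common kernel. -/
theorem indep_succ {R H : Type} [Group R] [Group H] {j : H →* R} (hj : FI j) {b : ℕ}
    {f : Fin b → (Additive R →+ ℤ)} (hf : LinearIndependent ℤ f) (g : Additive H →+ ℤ) (x : H)
    (hx : j x ∈ ker1 R) (hgx : g (Additive.ofMul x) ≠ 0) :
    ∃ f' : Fin (b + 1) → (Additive H →+ ℤ), LinearIndependent ℤ f' := by
  refine ⟨Fin.snoc (fun k => (f k).comp j.toAdditive) g, ?_⟩
  rw [Fintype.linearIndependent_iff]
  intro c hc
  rw [Fin.sum_univ_castSucc] at hc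
  simp only [Fin.snoc_castSucc, Fin.snoc_last] at hc
  have hc1 : ∀ y : H, (∑ k : Fin b, c k.castSucc * f k (Additive.ofMul (j y))) +
      c (Fin.last b) * g (Additive.ofMul y) = 0 := by
    intro y
    have h1 := DFunLike.congr_fun hc (Additive.ofMul y)
    rw [AddMonoidHom.add_apply, AddMonoidHom.finsetSum_apply] at h1
    simp only [AddMonoidHom.smul_apply, smul_eq_mul, AddMonoidHom.zero_apply] at h1
    exact h1
  have hlast : c (Fin.last b) = 0 := by
    have h1 := hc1 x
    have h2 : (∑ k : Fin b, c k.castSucc * f k (Additive.ofMul (j x))) = 0 :=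
      Finset.sum_eq_zero fun k _ => by rw [hx (f k), mul_zero]
    rw [h2, zero_add] at h1
    exact (mul_eq_zero.1 h1).resolve_right hgx
  have hrest : ∑ k : Fin b, c k.castSucc • f k = 0 := by
    refine DFunLike.ext _ _ fun r => ?_
    obtain ⟨m, hm0, -, hm⟩ :=
      Subgroup.exists_pow_mem_of_index_ne_zero hj.2.index_ne_zero (Additive.toMul r)
    obtain ⟨y, hy⟩ := hm
    have h1 := hc1 y
    rw [hlast, zero_mul, add_zero, hy] at h1
    have h2 : (∑ k : Fin b, c k.castSucc * f k (Additive.ofMul (Additive.toMul r ^ m))) =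
        m * ∑ k : Fin b, c k.castSucc * f k r := by
      rw [Finset.mul_sum]
      refine Finset.sum_congr rfl fun k _ => ?_
      rw [ofMul_pow, map_nsmul, nsmul_eq_mul, ofMul_toMul]
      ring
    rw [h2] at h1
    rw [AddMonoidHom.finsetSum_apply]
    simp only [AddMonoidHom.smul_apply, smul_eq_mul, AddMonoidHom.zero_apply]
    exact (mul_eq_zero.1 h1).resolve_left (by exact_mod_cast hm0.ne')
  have h3 := (Fintype.linearIndependent_iff.1 hf) (fun k => c k.castSucc) hrest
  intro k
  refine Fin.lastCases hlast (fun k => h3 k) k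

section

variable {G : Type} [Group G] (hG : Group.FG G) (n : ℕ)
  (h1 : ∀ H : Subgroup G, H.FiniteIndex → Group.FG (ker1 H))
  (𝒲 : (W : Type) → [Group W] → Prop)
  (h2 : ∀ H : Subgroup G, H.FiniteIndex → ∀ L : Subgroup (ker1 H), L.FiniteIndex →
    ∀ (W : Type) [Group W], 𝒲 W → ∀ ρ : L →* W, VirtAb ρ.range)
  (h3 : ∀ H : Subgroup G, H.FiniteIndex → ∀ (k : ℕ) (f : Fin k → (Additive H →+ ℤ)),
    LinearIndependent ℤ f → k ≤ n)
  (h4 : ∀ H : Subgroup G, H.FiniteIndex → ∀ (S : Type) [Group S] (f : H →* S),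
    Function.Surjective f → Group.IsSolvable S → (∀ T : Subgroup S, T.FG) → VirtAb S)
  {Q : Type} [Group Q] (p : G →* Q) (hp : Function.Surjective p)

include hG h1 h2 h3 h4 hp

theorem main : ∃ R : Subgroup Q, R.FiniteIndex ∧ ∃ K : Subgroup R, K.Normal ∧ Group.FG K ∧
    (∀ x y : R, ⁅x, y⁆ ∈ K) ∧
    (∀ L : Subgroup K, L.FiniteIndex → ∀ f : Additive L →+ ℤ, f = 0) ∧
    (∀ L : Subgroup K, L.FiniteIndex → ∀ (W : Type) [Group W], 𝒲 W → ∀ ρ : L →* W,
      Finite ρ.range) ∧ (VirtAb Q ↔ Finite K) := by
  classical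
  have hQfg : Group.FG Q := Group.fg_of_surjective hp
  have hsol : ∀ (H : Type) [Group H] (i : H →* Q), FI i → ∀ (S : Type) [Group S] (f : H →* S),
      Function.Surjective f → Group.IsSolvable S → (∀ T : Subgroup S, T.FG) → VirtAb S := by
    intro H _ i hi S _ f hf hS hS2
    obtain ⟨H', hH', q, hq, -⟩ := lift hp hi
    exact h4 H' hH' S (f.comp q) (hf.comp hq) hS hS2
  let P : ℕ → Prop := fun k => ∃ R : Subgroup Q, R.FiniteIndex ∧
    ∃ f : Fin k → (Additive R →+ ℤ), LinearIndependent ℤ f
  have hP0 : P 0 := ⟨⊤, inferInstance, fun k => k.elim0, linearIndependent_empty_type⟩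
  have hPn : ∀ k, P k → k ≤ n := by
    rintro k ⟨R, hR, f, hf⟩
    obtain ⟨H', hH', q, hq, -⟩ := lift hp (FI_subtype R)
    refine h3 H' hH' k (fun l => (f l).comp q.toAdditive) ?_
    rw [Fintype.linearIndependent_iff] at hf ⊢
    intro c hc
    apply hf c
    refine DFunLike.ext _ _ fun r => ?_
    obtain ⟨h, hh⟩ := hq (Additive.toMul r)
    have e1 := DFunLike.congr_fun hc (Additive.ofMul h)
    rw [AddMonoidHom.finsetSum_apply] at e1 ⊢
    simp only [AddMonoidHom.smul_apply, AddMonoidHom.zero_apply] at e1 ⊢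
    have e2 : q.toAdditive (Additive.ofMul h) = r := by
      change Additive.ofMul (q h) = r
      rw [hh]; rfl
    simp only [AddMonoidHom.comp_apply, e2] at e1
    exact e1
  set b := Nat.findGreatest P n with hb
  have hPb : P b := Nat.findGreatest_spec (Nat.zero_le n) hP0
  have hPmax : ∀ k, P k → k ≤ b := fun k hk => Nat.le_findGreatest (hPn k hk) hk
  obtain ⟨R, hR, f, hf⟩ := hPb
  have hi := FI_subtype R
  have hmax : ∀ (H : Type) [Group H] (j : H →* R), FI j → ∀ (g : Additive H →+ ℤ) (x : H),
      j x ∈ ker1 R → g (Additive.ofMul x) = 0 := by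
    intro H _ j hj g x hx
    by_contra hgx
    obtain ⟨f', hf'⟩ := indep_succ hj hf g x hx hgx
    have hFI := hj.comp hi
    let e := MonoidHom.ofInjective hFI.1
    have hk : P (b + 1) := by
      refine ⟨(R.subtype.comp j).range, hFI.2, fun l => (f' l).comp e.symm.toMonoidHom.toAdditive, ?_⟩
      rw [Fintype.linearIndependent_iff] at hf' ⊢
      intro c hc
      apply hf' c
      refine DFunLike.ext _ _ fun r => ?_
      have e1 := DFunLike.congr_fun hc (Additive.ofMul (e (Additive.toMul r)))
      rw [AddMonoidHom.finsetSum_apply] at e1 ⊢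
      simp only [AddMonoidHom.smul_apply, AddMonoidHom.zero_apply] at e1 ⊢
      have e2 : e.symm.toMonoidHom.toAdditive (Additive.ofMul (e (Additive.toMul r))) = r := by
        change Additive.ofMul (e.symm (e (Additive.toMul r))) = r
        rw [e.symm_apply_apply]; rfl
      simp only [AddMonoidHom.comp_apply, e2] at e1
      exact e1
    have := hPmax _ hk
    omega
  obtain ⟨H0, hH0, q, hq, hiq⟩ := lift hp hi
  let K : Subgroup R := (ker1 H0).map q
  have hKn : K.Normal := Subgroup.Normal.map inferInstance q hq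
  have hK1 : K ≤ ker1 R := by
    rintro _ ⟨x, hx, rfl⟩
    exact map_mem_ker1 q hx
  have hK2 : ∀ x y : R, ⁅x, y⁆ ∈ K := by
    intro x y
    obtain ⟨x', rfl⟩ := hq x
    obtain ⟨y', rfl⟩ := hq y
    exact ⟨⁅x', y'⁆, commutator_mem_ker1 _ _, map_commutatorElement _ _ _⟩
  have hker : Group.FG (ker1 H0) := h1 H0 hH0
  have hKfg : Group.FG K :=
    Group.fg_of_surjective (f := q.subgroupMap (ker1 H0)) (q.subgroupMap_surjective (ker1 H0))
  have hL : ∀ L : Subgroup K, L.FiniteIndex → ∀ f : Additive L →+ ℤ, f = 0 := by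
    intro L _ f
    refine DFunLike.ext _ _ fun y => ?_
    exact core1 hi hsol K hK2 hmax hK1 L f (Additive.toMul y)
  refine ⟨R, hR, K, hKn, hKfg, hK2, hL, ?_, ?_⟩
  · intro L hLi W _ hW ρ
    by_contra hinf
    rw [not_finite_iff_infinite] at hinf
    have hv : VirtAb ρ.range := by
      let s := q.subgroupMap (ker1 H0)
      have hs : Function.Surjective s := q.subgroupMap_surjective (ker1 H0)
      have hLi' : (L.comap s).FiniteIndex := ⟨by
        rw [Subgroup.index_comap_of_surjective _ hs]; exact hLi.index_ne_zero⟩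
      let t : (L.comap s) →* L := (s.comp (L.comap s).subtype).codRestrict L fun z => z.2
      have ht : Function.Surjective t := by
        rintro ⟨y, hy⟩
        obtain ⟨x, rfl⟩ := hs y
        exact ⟨⟨x, hy⟩, rfl⟩
      have h5 := h2 H0 hH0 (L.comap s) hLi' W hW (ρ.comp t)
      have h6 : (ρ.comp t).range = ρ.range := by
        rw [MonoidHom.range_eq_map, ← Subgroup.map_map, ← MonoidHom.range_eq_map,
          MonoidHom.range_eq_top.2 ht, MonoidHom.range_eq_map]
      rw [h6] at h5
      exact h5
    obtain ⟨A, hA, hAc⟩ := hv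
    have hLfg : Group.FG L := inferInstance
    have hrfg : Group.FG ρ.range := inferInstance
    have hAfg : Group.FG A := inferInstance
    have hAinf : Infinite A := by
      by_contra hfin
      rw [not_infinite_iff_finite] at hfin
      exact hinf.not_finite ((Subgroup.finite_iff_finite_and_finiteIndex A).2 ⟨hfin, hA⟩)
    obtain ⟨F, a, hFa⟩ := exists_hom_of_infinite
      (fun u v : A => Subtype.ext (hAc u u.2 v v.2))
    have hsur := ρ.rangeRestrict_surjective
    have hLf : (A.comap ρ.rangeRestrict).FiniteIndex := ⟨by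
      rw [Subgroup.index_comap_of_surjective _ hsur]; exact hA.index_ne_zero⟩
    let r : (A.comap ρ.rangeRestrict) →* A :=
      (ρ.rangeRestrict.comp (A.comap ρ.rangeRestrict).subtype).codRestrict A fun z => z.2
    have hFI2 : FI (L.subtype.comp (A.comap ρ.rangeRestrict).subtype) :=
      (FI_subtype (A.comap ρ.rangeRestrict)).comp (FI_subtype L)
    let e := MonoidHom.ofInjective hFI2.1
    have h7 := hL _ hFI2.2 ((F.comp r.toAdditive).comp e.symm.toMonoidHom.toAdditive)
    obtain ⟨z, hz⟩ := hsur a
    let z' : A.comap ρ.rangeRestrict := ⟨z, by rw [Subgroup.mem_comap, hz]; exact a.2⟩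
    have h8 := DFunLike.congr_fun h7 (Additive.ofMul (e z'))
    apply hFa
    have h9 : r z' = a := Subtype.ext hz
    have h10 : e.symm (e z') = z' := e.symm_apply_apply z'
    rw [← h9]
    change F (Additive.ofMul (r (e.symm (e z')))) = 0 at h8
    rw [h10] at h8
    exact h8
  · constructor
    · rintro ⟨A, hA, hAc⟩
      by_contra hinf
      rw [not_finite_iff_infinite] at hinf
      let φ : K →* Q := R.subtype.comp K.subtype
      have hφ : Function.Injective φ := fun x y hxy => Subtype.ext (Subtype.ext hxy)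
      have hLf : (A.comap φ).FiniteIndex := ⟨by
        rw [Subgroup.index_comap]
        intro h0
        exact hA.index_ne_zero (Subgroup.index_eq_zero_of_relIndex_eq_zero h0)⟩
      have hLfg : Group.FG (A.comap φ) := inferInstance
      have hLinf : Infinite (A.comap φ) := by
        by_contra hfin
        rw [not_infinite_iff_finite] at hfin
        exact hinf.not_finite ((Subgroup.finite_iff_finite_and_finiteIndex (A.comap φ)).2
          ⟨hfin, hLf⟩)
      obtain ⟨F, a, hFa⟩ := exists_hom_of_infinite (fun u v : A.comap φ =>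
        Subtype.ext (hφ (by rw [Subgroup.coe_mul, map_mul, Subgroup.coe_mul, map_mul]
                            exact hAc _ u.2 _ v.2)))
      apply hFa
      rw [hL _ hLf F]
      rfl
    · intro hfin
      exact VirtAb.of_FI hi (core2 hi hsol K hK2)

theorem main2 (hQ : ∀ P : Subgroup Q, P.FG → Infinite P → ∃ P0 : Subgroup P, P0.FiniteIndex ∧
    ∃ (W : Type) (_ : Group W) (_ : 𝒲 W) (ρ : P0 →* W), Infinite ρ.range) : VirtAb Q := by
  obtain ⟨R, hR, K, hKn, hKfg, hK2, hL, hρ, hfin⟩ := main hG n h1 𝒲 h2 h3 h4 p hp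
  apply hfin.2
  by_contra hinf
  rw [not_finite_iff_infinite] at hinf
  have e1 : (K.map R.subtype).FG := by
    rw [← Group.fg_iff_subgroup_fg]
    exact Group.fg_of_surjective (f := R.subtype.subgroupMap K) (R.subtype.subgroupMap_surjective K)
  have e2 : Infinite (K.map R.subtype) :=
    Infinite.of_injective (R.subtype.subgroupMap K) fun x y hxy => by
      have h := congrArg (fun z : K.map R.subtype => (z : Q)) hxy
      exact Subtype.ext (Subtype.ext h)
  obtain ⟨P0, hP0, W, _, hW, ρ, hρi⟩ := hQ _ e1 e2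
  let s := R.subtype.subgroupMap K
  have hs : Function.Surjective s := R.subtype.subgroupMap_surjective K
  have hLi : (P0.comap s).FiniteIndex := ⟨by
    rw [Subgroup.index_comap_of_surjective _ hs]; exact hP0.index_ne_zero⟩
  let t : (P0.comap s) →* P0 := (s.comp (P0.comap s).subtype).codRestrict P0 fun z => z.2
  have ht : Function.Surjective t := by
    rintro ⟨y, hy⟩
    obtain ⟨x, rfl⟩ := hs y
    exact ⟨⟨x, hy⟩, rfl⟩
  have e3 := hρ _ hLi W hW (ρ.comp t)
  have e4 : (ρ.comp t).range = ρ.range := by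
    rw [MonoidHom.range_eq_map, ← Subgroup.map_map, ← MonoidHom.range_eq_map,
      MonoidHom.range_eq_top.2 ht, MonoidHom.range_eq_map]
  rw [e4] at e3
  exact hρi.not_finite e3

end

end Pool.Agent.Lib.MP_93ec49_ag
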