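import Pool.Agent.Lib.MP_93ec49_ag.SQ3

/-!
# The class of the groups without interesting images of special fundamental groups
-/

set_option autoImplicit false

namespace Pool.Agent.Lib.MP_93ec49_ag

open Subgroup
open scoped commutatorElement

/-- Properties of the class `𝒮` of the fundamental groups of the special compact Kähler manifolds:
they are finitely generated (`fg`), the class contains the subgroups of finite index of its members
(`cover`), the kernel of the map of `G` to its abelianisation modulo torsion is the image of a member of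
the class (`fibre`; the fundamental group of a general fibre of the Albanese map), the first Betti
numbers of the subgroups of finite index of `G` are bounded (`betti`), the polycyclic quotients of `G`
are virtually abelian (`poly`; a group is polycyclic if it is solvable and all its subgroups are
finitely generated). -/
structure SpecialClass (𝒮 : (G : Type) → [Group G] → Prop) : Prop where
  fg : ∀ (G : Type) [Group G], 𝒮 G → Group.FG G
  cover : ∀ (G : Type) [Group G], 𝒮 G → ∀ H : Subgroup G, H.FiniteIndex → 𝒮 H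
  fibre : ∀ (G : Type) [Group G], 𝒮 G →
    ∃ (F : Type) (_ : Group F) (_ : 𝒮 F) (f : F →* G), f.range = ker1 G
  betti : ∀ (G : Type) [Group G], 𝒮 G → ∃ n : ℕ, ∀ H : Subgroup G, H.FiniteIndex →
    ∀ (k : ℕ) (f : Fin k → (Additive H →+ ℤ)), LinearIndependent ℤ f → k ≤ n
  poly : ∀ (G : Type) [Group G], 𝒮 G → ∀ (S : Type) [Group S] (f : G →* S),
    Function.Surjective f → Group.IsSolvable S → (∀ T : Subgroup S, T.FG) → VirtAb S

/-- Every homomorphism from a member of `𝒮` to `V` has a virtually abelian image. -/
def Abl (𝒮 : (G : Type) → [Group G] → Prop) (V : Type) [Group V] : Prop :=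
  ∀ (G : Type) [Group G], 𝒮 G → ∀ f : G →* V, VirtAb f.range

theorem VirtAb.of_injective {H R : Type*} [Group H] [Group R] {i : H →* R}
    (hi : Function.Injective i) (h : VirtAb R) : VirtAb H := by
  obtain ⟨A, hA, hc⟩ := h
  refine ⟨A.comap i, ⟨?_⟩, ?_⟩
  · rw [Subgroup.index_comap]
    intro h0
    exact hA.index_ne_zero (Subgroup.index_eq_zero_of_relIndex_eq_zero h0)
  · intro x hx y hy
    apply hi
    rw [map_mul, map_mul]
    exact hc _ hx _ hy

variable {𝒮 : (G : Type) → [Group G] → Prop}

theorem Abl.of_injective {V V' : Type} [Group V] [Group V'] {i : V →* V'}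
    (hi : Function.Injective i) (h : Abl 𝒮 V') : Abl 𝒮 V := by
  intro G _ hG f
  have h1 := h G hG (i.comp f)
  let j : f.range →* (i.comp f).range := (i.comp f.range.subtype).codRestrict _ (by
    rintro ⟨_, g, rfl⟩
    exact ⟨g, rfl⟩)
  refine VirtAb.of_injective (i := j) (fun x y hxy => ?_) h1
  have h2 := congrArg (fun z : (i.comp f).range => (z : V')) hxy
  exact Subtype.ext (hi h2)

theorem Abl.of_comm {V : Type} [Group V] (h : ∀ x y : V, x * y = y * x) : Abl 𝒮 V :=
  fun _ _ _ _ => ⟨⊤, inferInstance, fun x _ y _ => Subtype.ext (h x y)⟩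

theorem Abl.of_finiteIndex (hS : SpecialClass 𝒮) {V : Type} [Group V] (V0 : Subgroup V)
    [hV0 : V0.FiniteIndex] (h : Abl 𝒮 V0) : Abl 𝒮 V := by
  intro G _ hG f
  have hG0 : (V0.comap f).FiniteIndex := ⟨by
    rw [Subgroup.index_comap]
    intro h0
    exact hV0.index_ne_zero (Subgroup.index_eq_zero_of_relIndex_eq_zero h0)⟩
  let f0 : (V0.comap f) →* V0 := (f.comp (V0.comap f).subtype).codRestrict V0 fun z => z.2
  have h1 := h _ (hS.cover G hG _ hG0) f0
  let j : f0.range →* f.range := (V0.subtype.comp f0.range.subtype).codRestrict _ (by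
    rintro ⟨_, g, rfl⟩
    exact ⟨g, rfl⟩)
  refine VirtAb.of_FI (i := j) ⟨fun x y hxy => ?_, ?_⟩ h1
  · have h2 := congrArg (fun z : f.range => (z : V)) hxy
    exact Subtype.ext (Subtype.ext h2)
  · have h2 : ((V0.comap f).map f.rangeRestrict).FiniteIndex := ⟨by
      rw [Subgroup.index_map, MonoidHom.range_eq_top.2 f.rangeRestrict_surjective,
        Subgroup.index_top, mul_one]
      have h3 : (V0.comap f ⊔ f.rangeRestrict.ker).FiniteIndex :=
        Subgroup.finiteIndex_of_le (H := V0.comap f) le_sup_left
      exact h3.index_ne_zero⟩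
    refine Subgroup.finiteIndex_of_le (H := (V0.comap f).map f.rangeRestrict) ?_
    rintro _ ⟨g, hg, rfl⟩
    exact ⟨⟨f0 ⟨g, hg⟩, ⟨⟨g, hg⟩, rfl⟩⟩, Subtype.ext rfl⟩

/-- The criterion: every infinite finitely generated subgroup of `V` has a subgroup of finite index
with an infinite image in a good group. -/
theorem Abl.iff (hS : SpecialClass 𝒮) (V : Type) [Group V] : Abl 𝒮 V ↔
    ∀ P : Subgroup V, P.FG → Infinite P → ∃ P0 : Subgroup P, P0.FiniteIndex ∧
      ∃ (W : Type) (_ : Group W) (_ : Abl 𝒮 W) (ρ : P0 →* W), Infinite ρ.range := by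
  constructor
  · intro h P _ hP
    refine ⟨⊤, inferInstance, V, inferInstance, h, P.subtype.comp (⊤ : Subgroup P).subtype, ?_⟩
    exact Infinite.of_injective
      (fun x : P => (⟨(x : V), ⟨⟨x, trivial⟩, rfl⟩⟩ :
        (P.subtype.comp (⊤ : Subgroup P).subtype).range)) fun x y hxy =>
      Subtype.ext (congrArg (fun z : (P.subtype.comp (⊤ : Subgroup P).subtype).range => (z : V)) hxy)
  · intro h G _ hG f
    obtain ⟨n, hn⟩ := hS.betti G hG
    refine main2 (hS.fg G hG) n ?_ (fun W _ => Abl 𝒮 W) ?_ hn ?_ f.rangeRestrict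
      f.rangeRestrict_surjective ?_
    · intro H hH
      obtain ⟨F, _, hF, g, hg⟩ := hS.fibre H (hS.cover G hG H hH)
      have h1 : Group.FG F := hS.fg F hF
      rw [← hg]
      infer_instance
    · intro H hH L hL W _ hW ρ
      obtain ⟨F, _, hF, g, hg⟩ := hS.fibre H (hS.cover G hG H hH)
      let g' : F →* ker1 H := g.codRestrict _ fun x => by rw [← hg]; exact ⟨x, rfl⟩
      have hg' : Function.Surjective g' := by
        rintro ⟨x, hx⟩
        rw [← hg] at hx
        obtain ⟨y, hy⟩ := hx
        exact ⟨y, Subtype.ext hy⟩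
      have hL' : (L.comap g').FiniteIndex := ⟨by
        rw [Subgroup.index_comap_of_surjective _ hg']; exact hL.index_ne_zero⟩
      let t : (L.comap g') →* L := (g'.comp (L.comap g').subtype).codRestrict L fun z => z.2
      have ht : Function.Surjective t := by
        rintro ⟨y, hy⟩
        obtain ⟨x, rfl⟩ := hg' y
        exact ⟨⟨x, hy⟩, rfl⟩
      have h1 := hW _ (hS.cover F hF (L.comap g') hL') (ρ.comp t)
      have h2 : (ρ.comp t).range = ρ.range := by
        rw [MonoidHom.range_eq_map, ← Subgroup.map_map, ← MonoidHom.range_eq_map,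
          MonoidHom.range_eq_top.2 ht, MonoidHom.range_eq_map]
      rw [h2] at h1
      exact h1
    · intro H hH S _ g hg hs hp
      exact hS.poly H (hS.cover G hG H hH) S g hg hs hp
    · intro P hP hPi
      have e1 : (P.map f.range.subtype).FG := by
        rw [← Group.fg_iff_subgroup_fg] at hP ⊢
        exact Group.fg_of_surjective (f := f.range.subtype.subgroupMap P)
          (f.range.subtype.subgroupMap_surjective P)
      have e2 : Infinite (P.map f.range.subtype) :=
        Infinite.of_injective (f.range.subtype.subgroupMap P) fun x y hxy => by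
          have h := congrArg (fun z : P.map f.range.subtype => (z : V)) hxy
          exact Subtype.ext (Subtype.ext h)
      obtain ⟨P0, hP0, W, iW, hW, ρ, hρi⟩ := h _ e1 e2
      let s := f.range.subtype.subgroupMap P
      have hs : Function.Surjective s := f.range.subtype.subgroupMap_surjective P
      have hLi : (P0.comap s).FiniteIndex := ⟨by
        rw [Subgroup.index_comap_of_surjective _ hs]; exact hP0.index_ne_zero⟩
      let t : (P0.comap s) →* P0 := (s.comp (P0.comap s).subtype).codRestrict P0 fun z => z.2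
      have ht : Function.Surjective t := by
        rintro ⟨y, hy⟩
        obtain ⟨x, rfl⟩ := hs y
        exact ⟨⟨x, hy⟩, rfl⟩
      refine ⟨P0.comap s, hLi, W, iW, hW, ρ.comp t, ?_⟩
      have e4 : (ρ.comp t).range = ρ.range := by
        rw [MonoidHom.range_eq_map, ← Subgroup.map_map, ← MonoidHom.range_eq_map,
          MonoidHom.range_eq_top.2 ht]
        exact (MonoidHom.range_eq_map ρ).symm
      rw [e4]
      exact hρi

/-- Locally virtually indicable groups are good. -/
theorem Abl.of_indicable (hS : SpecialClass 𝒮) {V : Type} [Group V]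
    (h : ∀ P : Subgroup V, P.FG → Infinite P → ∃ P0 : Subgroup P, P0.FiniteIndex ∧
      ∃ (g : Additive P0 →+ ℤ) (x : P0), g (Additive.ofMul x) ≠ 0) : Abl 𝒮 V := by
  rw [Abl.iff hS]
  intro P hP hPi
  obtain ⟨P0, hP0, g, x, hx⟩ := h P hP hPi
  refine ⟨P0, hP0, Multiplicative ℤ, inferInstance, Abl.of_comm fun x y => mul_comm x y,
    AddMonoidHom.toMultiplicativeRight g, ?_⟩
  refine Infinite.of_injective (fun m : ℕ =>
    (⟨AddMonoidHom.toMultiplicativeRight g (x ^ m), ⟨x ^ m, rfl⟩⟩ :
      (AddMonoidHom.toMultiplicativeRight g).range)) ?_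
  intro m m' hm
  have h1 : g (Additive.ofMul (x ^ m)) = g (Additive.ofMul (x ^ m')) :=
    congrArg (fun z : (AddMonoidHom.toMultiplicativeRight g).range =>
      Multiplicative.toAdd (z : Multiplicative ℤ)) hm
  rw [ofMul_pow, ofMul_pow, map_nsmul, map_nsmul, nsmul_eq_mul, nsmul_eq_mul] at h1
  have h2 := mul_right_cancel₀ hx h1
  exact_mod_cast h2

/-- Extensions of good groups by good groups are good. -/
theorem Abl.extension (hS : SpecialClass 𝒮) {V : Type} [Group V] (N : Subgroup V) [N.Normal]
    (h1 : Abl 𝒮 N) (h2 : Abl 𝒮 (V ⧸ N)) : Abl 𝒮 V := by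
  rw [Abl.iff hS]
  intro P hP hPi
  let φ : P →* V ⧸ N := (QuotientGroup.mk' N).comp P.subtype
  by_cases hφ : Infinite φ.range
  · refine ⟨⊤, inferInstance, V ⧸ N, inferInstance, h2, φ.comp (⊤ : Subgroup P).subtype, ?_⟩
    have e : (φ.comp (⊤ : Subgroup P).subtype).range = φ.range := by
      rw [MonoidHom.range_eq_map, ← Subgroup.map_map, ← MonoidHom.range_eq_map,
        Subgroup.range_subtype, MonoidHom.range_eq_map]
    rw [e]
    exact hφ
  · rw [not_infinite_iff_finite] at hφ
    have h3 : φ.ker.FiniteIndex := by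
      have : Finite (P ⧸ φ.ker) :=
        Finite.of_equiv _ (QuotientGroup.quotientKerEquivRange φ).symm.toEquiv
      exact Subgroup.finiteIndex_of_finite_quotient
    let j : φ.ker →* N := (P.subtype.comp φ.ker.subtype).codRestrict N (by
      rintro ⟨x, hx⟩
      exact (QuotientGroup.eq_one_iff _).1 hx)
    have hj : Function.Injective j := fun x y hxy => by
      have h := congrArg (fun z : N => (z : V)) hxy
      exact Subtype.ext (Subtype.ext h)
    refine ⟨φ.ker, h3, N, inferInstance, h1, j, ?_⟩
    have h4 : Infinite φ.ker := by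
      by_contra hfin
      rw [not_infinite_iff_finite] at hfin
      exact hPi.not_finite ((Subgroup.finite_iff_finite_and_finiteIndex φ.ker).2 ⟨hfin, h3⟩)
    exact Infinite.of_injective (fun x : φ.ker => (⟨j x, ⟨x, rfl⟩⟩ : j.range)) fun x y hxy =>
      hj (congrArg Subtype.val hxy)

end Pool.Agent.Lib.MP_93ec49_ag
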