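import Pool.Agent.Lib.MP_93ec49_ag.SQ1

/-!
# Groups all of whose subgroups are finitely generated
-/

set_option autoImplicit false

namespace Pool.Agent.Lib.MP_93ec49_ag

open Subgroup
open scoped commutatorElement

/-- A group with a finitely generated subgroup of finite index is finitely generated. -/
theorem fg_of_finiteIndex {V : Type*} [Group V] (H : Subgroup V) [H.FiniteIndex] (h : H.FG) :
    Group.FG V := by
  obtain ⟨X, hX, hXf⟩ := (Subgroup.fg_iff H).1 h
  have hfin : Finite (V ⧸ H) := inferInstance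
  rw [Group.fg_iff]
  refine ⟨X ∪ Set.range (Quotient.out : V ⧸ H → V), ?_, hXf.union (Set.finite_range _)⟩
  rw [eq_top_iff]
  intro g _
  have h1 : H ≤ Subgroup.closure (X ∪ Set.range (Quotient.out : V ⧸ H → V)) := by
    rw [← hX]
    exact Subgroup.closure_mono Set.subset_union_left
  have h2 : (Quotient.out (g : V ⧸ H)) ∈
      Subgroup.closure (X ∪ Set.range (Quotient.out : V ⧸ H → V)) :=
    Subgroup.subset_closure (Or.inr ⟨_, rfl⟩)
  have h3 : (Quotient.out (g : V ⧸ H))⁻¹ * g ∈ H := by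
    rw [← QuotientGroup.eq]
    exact QuotientGroup.out_eq' _
  have h4 := mul_mem h2 (h1 h3)
  rwa [mul_inv_cancel_left] at h4

theorem fg_of_relIndex {S : Type*} [Group S] {V W : Subgroup S} (hWV : W ≤ V)
    (h : W.relIndex V ≠ 0) (hW : W.FG) : V.FG := by
  rw [← Group.fg_iff_subgroup_fg]
  have : (W.subgroupOf V).FiniteIndex := ⟨h⟩
  refine fg_of_finiteIndex (W.subgroupOf V) ?_
  rw [← Group.fg_iff_subgroup_fg] at hW ⊢
  exact Group.fg_of_surjective (f := (Subgroup.subgroupOfEquivOfLe hWV).symm.toMonoidHom)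
    (Subgroup.subgroupOfEquivOfLe hWV).symm.surjective

/-- extension of finitely generated groups -/
theorem fg_of_map_ker {S S' : Type*} [Group S] [Group S'] (f : S →* S') (T : Subgroup S)
    (h1 : (T.map f).FG) (h2 : (T ⊓ f.ker).FG) : T.FG := by
  obtain ⟨X, hX, hXf⟩ := (Subgroup.fg_iff _).1 h1
  obtain ⟨Y, hY, hYf⟩ := (Subgroup.fg_iff _).1 h2
  have hX1 : ∀ x : X, ∃ t ∈ T, f t = x := fun x => by
    have : (x : S') ∈ T.map f := by rw [← hX]; exact Subgroup.subset_closure x.2
    exact this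
  choose s hs hfs using hX1
  have hXfin : Finite X := hXf.to_subtype
  refine (Subgroup.fg_iff _).2 ⟨Set.range s ∪ Y, ?_, (Set.finite_range s).union hYf⟩
  set U := Subgroup.closure (Set.range s ∪ Y) with hU
  have hYU : T ⊓ f.ker ≤ U := by
    rw [← hY]
    exact Subgroup.closure_mono Set.subset_union_right
  apply le_antisymm
  · rw [hU, Subgroup.closure_le]
    rintro t (⟨x, rfl⟩ | ht)
    · exact hs x
    · have : t ∈ T ⊓ f.ker := by rw [← hY]; exact Subgroup.subset_closure ht
      exact this.1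
  · intro t ht
    have h3 : T.map f ≤ U.map f := by
      rw [← hX, Subgroup.closure_le]
      intro x hx
      exact ⟨s ⟨x, hx⟩, Subgroup.subset_closure (Or.inl ⟨⟨x, hx⟩, rfl⟩), hfs ⟨x, hx⟩⟩
    obtain ⟨u, hu, hut⟩ := h3 ⟨t, ht, rfl⟩
    have huT : u ∈ T := by
      have : U ≤ T := by
        rw [hU, Subgroup.closure_le]
        rintro t (⟨x, rfl⟩ | ht)
        · exact hs x
        · have : t ∈ T ⊓ f.ker := by rw [← hY]; exact Subgroup.subset_closure ht
          exact this.1
      exact this hu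
    have h4 : u⁻¹ * t ∈ T ⊓ f.ker := by
      refine Subgroup.mem_inf.2 ⟨T.mul_mem (T.inv_mem huT) ht, ?_⟩
      rw [MonoidHom.mem_ker, map_mul, map_inv, hut, inv_mul_cancel]
    have h5 := mul_mem hu (hYU h4)
    rwa [mul_inv_cancel_left] at h5

theorem comm_noeth {A : Type*} [Group A] (hA : ∀ x y : A, x * y = y * x) [Group.FG A]
    (T : Subgroup A) : T.FG := by
  let _ : CommGroup A := { (inferInstance : Group A) with mul_comm := hA }
  have h1 : Module.Finite ℤ (Additive A) := Module.Finite.iff_addGroup_fg.2 inferInstance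
  have h2 : IsNoetherian ℤ (Additive A) := inferInstance
  rw [Subgroup.fg_iff_add_fg, ← AddSubgroup.toIntSubmodule_toAddSubgroup T.toAddSubgroup,
    ← Submodule.fg_iff_addSubgroup_fg]
  exact h2.noetherian _

/-- A chain of subgroups with finitely generated abelian, finite, and finitely generated abelian
quotients. -/
theorem noeth_chain {C S : Type*} [Group C] [Group S] [Group.FG C] (f : C →* S)
    (hf : Function.Surjective f) (K1 K2 : Subgroup C) [K1.Normal] (h1 : ∀ x y : C, ⁅x, y⁆ ∈ K1)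
    (h12 : K2 ≤ K1) (hi : K2.relIndex K1 ≠ 0) (hfg : K2.FG) (hk : f.ker ≤ K2)
    (h2 : ∀ x ∈ K2, ∀ y ∈ K2, f x * f y = f y * f x) (T : Subgroup S) : T.FG := by
  have hn : (K1.map f).Normal := Subgroup.Normal.map inferInstance f hf
  have hSfg : Group.FG S := Group.fg_of_surjective hf
  have hidx : (K2.map f).relIndex (K1.map f) ≠ 0 := by
    rw [Subgroup.relIndex_map_map, sup_eq_left.2 hk, sup_eq_left.2 (hk.trans h12)]
    exact hi
  have hab : ∀ x y : S ⧸ (K1.map f), x * y = y * x := by
    intro x y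
    obtain ⟨x, rfl⟩ := QuotientGroup.mk_surjective x
    obtain ⟨y, rfl⟩ := QuotientGroup.mk_surjective y
    obtain ⟨x, rfl⟩ := hf x
    obtain ⟨y, rfl⟩ := hf y
    rw [← commutatorElement_eq_one_iff_mul_comm]
    have : ((⁅f x, f y⁆ : S) : S ⧸ (K1.map f)) = 1 := by
      rw [QuotientGroup.eq_one_iff]
      exact ⟨⁅x, y⁆, h1 x y, map_commutatorElement f x y⟩
    exact this
  have hqfg : Group.FG (S ⧸ (K1.map f)) := inferInstance
  refine fg_of_map_ker (QuotientGroup.mk' (K1.map f)) T (comm_noeth hab _) ?_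
  rw [QuotientGroup.ker_mk']
  set V := T ⊓ K1.map f with hV
  have e1 : (K2.map f).relIndex V ≠ 0 := fun h =>
    hidx (Subgroup.relIndex_eq_zero_of_le_right inf_le_right h)
  have e2 : (V ⊓ K2.map f).relIndex V ≠ 0 := by
    rw [Subgroup.inf_relIndex_left]
    exact e1
  refine fg_of_relIndex inf_le_left e2 ?_
  -- a subgroup of a finitely generated abelian group
  have hK2 : Group.FG K2 := (Group.fg_iff_subgroup_fg K2).2 hfg
  have e3 : Group.FG (K2.map f) :=
    Group.fg_of_surjective (f := f.subgroupMap K2) (f.subgroupMap_surjective K2)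
  have e4 : ∀ x y : K2.map f, x * y = y * x := by
    rintro ⟨_, x, hx, rfl⟩ ⟨_, y, hy, rfl⟩
    exact Subtype.ext (h2 x hx y hy)
  have e5 := comm_noeth e4 ((V ⊓ K2.map f).subgroupOf (K2.map f))
  rw [← Group.fg_iff_subgroup_fg] at e5 ⊢
  exact Group.fg_of_surjective
    (f := (Subgroup.subgroupOfEquivOfLe (inf_le_right : V ⊓ K2.map f ≤ K2.map f)).toMonoidHom)
    (Subgroup.subgroupOfEquivOfLe _).surjective

end Pool.Agent.Lib.MP_93ec49_ag
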